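import Pool.Agent.H85.BC.Basic

/-!
# Row GEN: asymptotically commuting unitaries of small trace
-/

set_option autoImplicit false

open scoped InnerProductSpace Topology
open Filter

namespace Pool.Agent.H27.BC

open Pool.Agent.H85.BC

variable {H : Type} [NormedAddCommGroup H] [InnerProductSpace ℂ H] [CompleteSpace H]

/-- Pythagoras: `‖(x - (τ(x)/τ(p)) p) ξ‖² = ‖x ξ‖² - |τ(x)|²/τ(p)` for `x` with `p x = x`. -/
theorem norm_sub_scalar_sq {ξ : H} {x p : H →L[ℂ] H} (hp : IsStarProjection p)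
    (hx : p * x = x) (hpos : 0 < ‖p ξ‖) :
    ‖(x - (tr ξ x / tr ξ p) • p) ξ‖ ^ 2 + ‖tr ξ x‖ ^ 2 / ‖p ξ‖ ^ 2 = ‖x ξ‖ ^ 2 := by
  have hps := hp.isSelfAdjoint.star_eq
  have hpp := hp.isIdempotentElem.eq
  set t : ℂ := tr ξ x / tr ξ p with ht
  have htp : tr ξ p = ((‖p ξ‖ ^ 2 : ℝ) : ℂ) := tr_proj ξ hp
  have hne : ((‖p ξ‖ ^ 2 : ℝ) : ℂ) ≠ 0 := by
    exact_mod_cast (pow_pos hpos 2).ne'
  have hxt : tr ξ x = t * ((‖p ξ‖ ^ 2 : ℝ) : ℂ) := by
    rw [ht, htp, div_mul_cancel₀ _ hne]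
  -- inner product of `p ξ` and `x ξ`
  have hin : (inner ℂ (p ξ) (x ξ) : ℂ) = tr ξ x := by
    have h1 := tr_star_mul ξ p x
    rw [hps, hx] at h1
    exact h1.symm
  have h0 : (inner ℂ ((x - t • p) ξ) ((t • p) ξ) : ℂ) = 0 := by
    have h1 : (inner ℂ ((t • p) ξ) ((x - t • p) ξ) : ℂ) = 0 := by
      have h2 : (t • p) ξ = t • p ξ := rfl
      have h3 : (x - t • p) ξ = x ξ - t • p ξ := rfl
      rw [h2, h3, inner_smul_left, inner_sub_right, inner_smul_right, hin,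
        inner_self_eq_norm_sq_to_K, hxt]
      push_cast
      ring_nf
      simp
    rw [← inner_conj_symm, h1, map_zero]
  have h1 : x ξ = (x - t • p) ξ + (t • p) ξ := by
    show x ξ = (x ξ - (t • p) ξ) + (t • p) ξ
    rw [sub_add_cancel]
  have h2 := norm_add_sq_eq_norm_sq_add_norm_sq_of_inner_eq_zero ((x - t • p) ξ) ((t • p) ξ) h0
  rw [← h1] at h2
  have h3 : ‖(t • p) ξ‖ * ‖(t • p) ξ‖ = ‖tr ξ x‖ ^ 2 / ‖p ξ‖ ^ 2 := by
    have h4 : (t • p) ξ = t • p ξ := rfl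
    rw [h4, norm_smul, hxt, norm_mul, Complex.norm_real, Real.norm_eq_abs,
      abs_of_pos (pow_pos hpos 2)]
    have := hpos.ne'
    field_simp
  rw [← h3]
  nlinarith [h2]

/-- `|τ(x q)| ≤ ‖x‖ τ(q)`, for `q` a projection of `N` and `x` arbitrary in `N`. -/
theorem norm_tr_mul_proj' {N : VonNeumannAlgebra H} {ξ : H} (htv : IsTraceVector N ξ)
    {x q : H →L[ℂ] H} (hx : x ∈ N) (hq : q ∈ N) (hqp : IsStarProjection q) :
    ‖tr ξ (x * q)‖ ≤ ‖x‖ * ‖q ξ‖ ^ 2 := by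
  have hqq := hqp.isIdempotentElem.eq
  have h1 : tr ξ (x * q) = inner ℂ (q ξ) (x (q ξ)) := by
    calc tr ξ (x * q) = tr ξ ((x * q) * q) := by rw [mul_assoc, hqq]
      _ = tr ξ (q * (x * q)) := htv.trace (x * q) (mul_mem hx hq) q hq
      _ = tr ξ (star q * (x * q)) := by rw [hqp.isSelfAdjoint.star_eq]
      _ = inner ℂ (q ξ) ((x * q) ξ) := tr_star_mul ξ q (x * q)
      _ = inner ℂ (q ξ) (x (q ξ)) := rfl
  rw [h1]
  have h2 := norm_inner_le_norm (𝕜 := ℂ) (q ξ) (x (q ξ))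
  have h3 := x.le_opNorm (q ξ)
  have h4 : ‖q ξ‖ * ‖x (q ξ)‖ ≤ ‖q ξ‖ * (‖x‖ * ‖q ξ‖) :=
    mul_le_mul_of_nonneg_left h3 (norm_nonneg _)
  calc ‖(inner ℂ (q ξ) (x (q ξ)) : ℂ)‖ ≤ ‖q ξ‖ * ‖x (q ξ)‖ := h2
    _ ≤ ‖q ξ‖ * (‖x‖ * ‖q ξ‖) := h4
    _ = ‖x‖ * ‖q ξ‖ ^ 2 := by ring

/-- The selfadjoint case. -/
theorem gen_sa (hEXP : T_EXP H) (hSCL : T_SCL H) (hPRD : T_PRD H)
    {N : VonNeumannAlgebra H} {ξ : H} (htv : IsTraceVector N ξ)
    {C : Set (H →L[ℂ] H)} {p : H →L[ℂ] H} (hI : Irr N C p)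
    {ι : Type} (U : Ultrafilter ι) (a : ι → (H →L[ℂ] H)) (haN : ∀ i, a i ∈ N)
    (hsa : ∀ i, IsSelfAdjoint (a i)) (hpa : ∀ i, p * a i = a i) (hap : ∀ i, a i * p = a i)
    (ha1 : ∀ i, ‖a i‖ ≤ 1)
    (hac : ∀ y ∈ C, Tendsto (fun i => ‖(a i * y - y * a i) ξ‖) (U : Filter ι) (𝓝 0))
    {δ : ℝ} (hδ : 0 < δ) (hδ1 : δ ≤ 1)
    (hev : ∀ᶠ i in (U : Filter ι), δ / 2 ≤ ‖(a i - (tr ξ (a i) / tr ξ p) • p) ξ‖)
    (G : Finset (H →L[ℂ] H)) (hG : ∀ g ∈ G, g ∈ C) (ε : ℝ) (hε : 0 < ε) :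
    ∃ W ∈ N, star W * W = 1 ∧ W * star W = 1 ∧ W * (1 - p) = 1 - p ∧
      ‖tr ξ (W * p)‖ < ε ∧ ∀ g ∈ G, ‖(W * g - g * W) ξ‖ < ε := by
  have hpN := hI.mem
  have hp := hI.proj
  have hpp := hp.isIdempotentElem.eq
  have hpos : 0 < ‖p ξ‖ := htv.norm_pos_apply hpN hI.ne_zero
  have hple : ‖p ξ‖ ≤ 1 := by
    have h1 := proj_apply_norm_le hp ξ
    rwa [htv.norm_eq] at h1
  set s : ℝ := δ / 8 with hs
  have hspos : 0 < s := by positivity
  have hs1 : s ≤ 1 := by rw [hs]; linarith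
  choose w hwN hw1 hw2 hwE hwc hwp using
    fun i => hEXP N ξ htv (a i) (haN i) (hsa i) (ha1 i) s hspos hs1
  have hwp1 : ∀ i, (w i - 1) * p = w i - 1 := fun i => (hwp i p (hpa i) (hap i)).1
  have hwp2 : ∀ i, p * (w i - 1) = w i - 1 := fun i => (hwp i p (hpa i) (hap i)).2
  have hw1p : ∀ i, w i * (1 - p) = 1 - p := by
    intro i
    have h1 := hwp1 i
    rw [sub_mul, one_mul] at h1
    rw [mul_sub, mul_one]
    have h2 : w i * p = w i - 1 + p := by rw [← h1]; abel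
    rw [h2]
    abel
  have hpw : ∀ i, p * (w i * p) = w i * p := by
    intro i
    have h1 := hwp2 i
    rw [mul_sub, mul_one] at h1
    have h2 : p * w i = w i - 1 + p := by rw [← h1]; abel
    rw [← mul_assoc, h2, add_mul, hwp1, hpp]
    have h3 := hwp1 i
    rw [sub_mul, one_mul] at h3
    rw [← h3]
    abel
  have hwnorm : ∀ i, ‖w i‖ ≤ 1 := by
    intro i
    have h1 : ‖star (w i) * w i‖ = ‖w i‖ * ‖w i‖ := CStarRing.norm_star_mul_self
    rw [hw1] at h1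
    have h2 : ‖(1 : H →L[ℂ] H)‖ ≤ 1 := ContinuousLinearMap.norm_id_le
    nlinarith [norm_nonneg (w i)]
  have htp : tr ξ p = ((‖p ξ‖ ^ 2 : ℝ) : ℂ) := tr_proj ξ hp
  have htp0 : tr ξ p ≠ 0 := by
    rw [htp]
    exact_mod_cast (pow_pos hpos 2).ne'
  set η : ℝ := δ ^ 2 / 32 with hη
  have hηpos : 0 < η := by positivity
  have hη1 : η ≤ 1 / 32 := by
    rw [hη]
    nlinarith
  set ρ : ℝ := Real.sqrt (1 - η ^ 2) with hρ
  have hρ2 : ρ ^ 2 = 1 - η ^ 2 := Real.sq_sqrt (by nlinarith)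
  have hρ0 : 0 ≤ ρ := Real.sqrt_nonneg _
  have hρ1 : ρ < 1 := by
    by_contra hc
    push Not at hc
    nlinarith [sq_pos_of_pos hηpos]
  -- bound for the trace
  have hbound : ∀ i, δ / 2 ≤ ‖(a i - (tr ξ (a i) / tr ξ p) • p) ξ‖ →
      ‖tr ξ (w i * p)‖ ≤ ρ * ‖p ξ‖ ^ 2 := by
    intro i hi
    have h1 := norm_sub_scalar_sq (ξ := ξ) hp (hpw i) hpos
    have h2 : ‖(w i * p) ξ‖ = ‖p ξ‖ := by
      have h3 := tr_star_mul_self ξ (w i * p)
      have h4 : star (w i * p) * (w i * p) = star p * p := by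
        calc star (w i * p) * (w i * p) = star p * (star (w i) * w i) * p := by
              rw [star_mul]; simp only [mul_assoc]
          _ = star p * p := by rw [hw1, mul_one]
      rw [h4, tr_star_mul_self] at h3
      have h5 : ‖p ξ‖ ^ 2 = ‖(w i * p) ξ‖ ^ 2 := by exact_mod_cast h3
      exact ((pow_left_inj₀ (norm_nonneg _) (norm_nonneg _) two_ne_zero).1 h5).symm
    set E : H →L[ℂ] H := w i - 1 - (Complex.I * (s : ℂ)) • a i with hE
    have hEN : E ∈ N := sub_mem (sub_mem (hwN i) (one_mem N)) (smul_mem' N _ (haN i))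
    have hEn : ‖E‖ ≤ s ^ 2 := hwE i
    have h3 : w i * p - (tr ξ (w i * p) / tr ξ p) • p =
        (Complex.I * (s : ℂ)) • (a i - (tr ξ (a i) / tr ξ p) • p) +
          (E * p - (tr ξ (E * p) / tr ξ p) • p) := by
      have h4 : w i * p = p + (Complex.I * (s : ℂ)) • a i + E * p := by
        rw [hE, sub_mul, sub_mul, one_mul, smul_mul_assoc, hap]
        abel
      have h5 : tr ξ (w i * p) / tr ξ p =
          1 + (Complex.I * (s : ℂ)) * (tr ξ (a i) / tr ξ p) + tr ξ (E * p) / tr ξ p := by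
        rw [h4, tr_add, tr_add, tr_smul]
        field_simp
      rw [h5]
      conv_lhs => rw [h4]
      module
    have h6 : ‖(E * p - (tr ξ (E * p) / tr ξ p) • p) ξ‖ ≤ s ^ 2 + s ^ 2 := by
      have h7 : (E * p - (tr ξ (E * p) / tr ξ p) • p) ξ =
          E (p ξ) - (tr ξ (E * p) / tr ξ p) • p ξ := rfl
      rw [h7]
      refine (norm_sub_le _ _).trans (add_le_add ?_ ?_)
      · refine (E.le_opNorm _).trans ?_
        calc ‖E‖ * ‖p ξ‖ ≤ s ^ 2 * 1 :=
              mul_le_mul hEn hple (norm_nonneg _) (by positivity)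
          _ = s ^ 2 := mul_one _
      · rw [norm_smul, norm_div, htp, Complex.norm_real, Real.norm_eq_abs,
          abs_of_pos (pow_pos hpos 2)]
        have h8 := norm_tr_mul_proj' htv hEN hpN hp
        have h9 : ‖tr ξ (E * p)‖ / ‖p ξ‖ ^ 2 ≤ s ^ 2 := by
          rw [div_le_iff₀ (pow_pos hpos 2)]
          exact h8.trans (mul_le_mul_of_nonneg_right hEn (by positivity))
        calc ‖tr ξ (E * p)‖ / ‖p ξ‖ ^ 2 * ‖p ξ‖ ≤ s ^ 2 * 1 :=
              mul_le_mul h9 hple (norm_nonneg _) (by positivity)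
          _ = s ^ 2 := mul_one _
    have h7 : η ≤ ‖(w i * p - (tr ξ (w i * p) / tr ξ p) • p) ξ‖ := by
      have h8 : (w i * p - (tr ξ (w i * p) / tr ξ p) • p) ξ =
          (Complex.I * (s : ℂ)) • ((a i - (tr ξ (a i) / tr ξ p) • p) ξ) +
            (E * p - (tr ξ (E * p) / tr ξ p) • p) ξ := by
        rw [h3]
        rfl
      have h9 : ‖(Complex.I * (s : ℂ)) • ((a i - (tr ξ (a i) / tr ξ p) • p) ξ)‖ =
          s * ‖(a i - (tr ξ (a i) / tr ξ p) • p) ξ‖ := by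
        rw [norm_smul, norm_mul, Complex.norm_I, one_mul, Complex.norm_real, Real.norm_eq_abs,
          abs_of_pos hspos]
      have h10 := norm_sub_norm_le
        ((Complex.I * (s : ℂ)) • ((a i - (tr ξ (a i) / tr ξ p) • p) ξ))
        (-((E * p - (tr ξ (E * p) / tr ξ p) • p) ξ))
      rw [sub_neg_eq_add, ← h8, h9, norm_neg] at h10
      have h11 : s * (δ / 2) ≤ s * ‖(a i - (tr ξ (a i) / tr ξ p) • p) ξ‖ :=
        mul_le_mul_of_nonneg_left hi hspos.le
      have h12 : s * (δ / 2) - (s ^ 2 + s ^ 2) = η := by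
        rw [hs, hη]
        ring
      linarith
    rw [h2] at h1
    have h8 : ‖tr ξ (w i * p)‖ ^ 2 ≤ (ρ * ‖p ξ‖ ^ 2) ^ 2 := by
      have h9 : η ^ 2 ≤ ‖(w i * p - (tr ξ (w i * p) / tr ξ p) • p) ξ‖ ^ 2 :=
        pow_le_pow_left₀ hηpos.le h7 2
      have h10 : ‖tr ξ (w i * p)‖ ^ 2 / ‖p ξ‖ ^ 2 ≤ ‖p ξ‖ ^ 2 - η ^ 2 := by linarith
      rw [div_le_iff₀ (pow_pos hpos 2)] at h10
      have h11 : (ρ * ‖p ξ‖ ^ 2) ^ 2 = (1 - η ^ 2) * ‖p ξ‖ ^ 4 := by
        rw [mul_pow, hρ2]; ring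
      rw [h11]
      have h12 : ‖p ξ‖ ^ 2 ≤ 1 := pow_le_one₀ (norm_nonneg _) hple
      have h13 : η ^ 2 * ‖p ξ‖ ^ 4 ≤ η ^ 2 * ‖p ξ‖ ^ 2 := by
        apply mul_le_mul_of_nonneg_left _ (by positivity)
        nlinarith [pow_nonneg (norm_nonneg (p ξ)) 2]
      nlinarith
    exact le_of_sq_le_sq h8 (by positivity)
  have hcomm0 : ∀ y ∈ C, Tendsto (fun i => ‖(w i * y - y * w i) ξ‖) (U : Filter ι) (𝓝 0) := by
    intro y hy
    have h1 : Tendsto (fun i => 3 * s * ‖(a i * y - y * a i) ξ‖) (U : Filter ι) (𝓝 0) := by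
      have := (hac y hy).const_mul (3 * s)
      rwa [mul_zero] at this
    exact squeeze_zero (fun i => norm_nonneg _) (fun i => hwc i y (hI.sub y hy)) h1
  have hthird : ∀ y ∈ N, Tendsto (fun i => tr ξ (y * (w i * p)) -
      tr ξ (y * p) * (tr ξ (w i * p) / tr ξ p)) (U : Filter ι) (𝓝 0) := by
    refine hSCL N ξ htv C p hI ι U (fun i => w i * p) 1 (fun i => mul_mem (hwN i) hpN) ?_ ?_ ?_
    · intro i
      show p * (w i * p) * p = w i * p
      rw [hpw, mul_assoc, hpp]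
    · intro i
      refine (norm_mul_le _ _).trans ?_
      have h1 := proj_norm_le_one hp
      calc ‖w i‖ * ‖p‖ ≤ 1 * 1 := mul_le_mul (hwnorm i) h1 (norm_nonneg _) zero_le_one
        _ = 1 := mul_one _
    · intro y hy
      refine squeeze_zero (fun i => norm_nonneg _) (fun i => ?_) (hcomm0 y hy)
      have hpy := hI.comm y hy
      have h1 : w i * p * y - y * (w i * p) = (w i * y - y * w i) * p := by
        rw [sub_mul, mul_assoc, hpy]
        simp only [mul_assoc]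
      have h2 := htv.norm_mul_right (x := w i * y - y * w i) (a := p)
        (sub_mem (mul_mem (hwN i) (hI.sub y hy)) (mul_mem (hI.sub y hy) (hwN i))) hpN
      rw [h1]
      refine h2.trans ?_
      have h3 := proj_norm_le_one hp
      calc ‖p‖ * ‖(w i * y - y * w i) ξ‖ ≤ 1 * ‖(w i * y - y * w i) ξ‖ :=
            mul_le_mul_of_nonneg_right h3 (norm_nonneg _)
        _ = _ := one_mul _
  exact hPRD N ξ htv p hpN hp hI.ne_zero ι U w
    (fun i => ⟨hwN i, hw1 i, hw2 i, hw1p i⟩) ρ hρ0 hρ1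
    (hev.mono hbound) hthird G (fun g hg => hI.sub g (hG g hg))
    (fun g hg => hcomm0 g (hG g hg)) ε hε

theorem pf_GEN (hEXP : T_EXP H) (hSCL : T_SCL H) (hPRD : T_PRD H) : T_GEN H := by
  intro N ξ htv C p hI ι U x hxN hpxp hx1 hxc hnot G hG ε hε
  have hp := hI.proj
  have hps := hp.isSelfAdjoint.star_eq
  have hpp := hp.isIdempotentElem.eq
  -- lower bound
  obtain ⟨δ, hδ, hδ1, hevδ⟩ : ∃ δ : ℝ, 0 < δ ∧ δ ≤ 1 ∧
      ∀ᶠ i in (U : Filter ι), δ ≤ ‖(x i - (tr ξ (x i) / tr ξ p) • p) ξ‖ := by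
    rw [Metric.tendsto_nhds] at hnot
    push Not at hnot
    obtain ⟨δ, hδ, h⟩ := hnot
    refine ⟨min δ 1, lt_min hδ one_pos, min_le_right _ _, ?_⟩
    refine h.mono (fun i hi => ?_)
    rw [Real.dist_eq, sub_zero, abs_of_nonneg (norm_nonneg _)] at hi
    exact (min_le_left _ _).trans hi
  have hpx : ∀ i, p * x i = x i := fun i => by
    calc p * x i = p * (p * x i * p) := by rw [hpxp]
      _ = (p * p) * x i * p := by simp only [mul_assoc]
      _ = x i := by rw [hpp, hpxp]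
  have hxp : ∀ i, x i * p = x i := fun i => by
    calc x i * p = p * x i * p * p := by rw [hpxp]
      _ = p * x i * (p * p) := by simp only [mul_assoc]
      _ = x i := by rw [hpp, hpxp]
  have hpxs : ∀ i, p * star (x i) = star (x i) := fun i => by
    have := congrArg star (hxp i)
    rwa [star_mul, hps] at this
  have hxsp : ∀ i, star (x i) * p = star (x i) := fun i => by
    have := congrArg star (hpx i)
    rwa [star_mul, hps] at this
  -- a general combination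
  have hgen : ∀ (c : ℂ), ‖c‖ = 1 / 2 → ∀ (a : ι → (H →L[ℂ] H)),
      (∀ i, a i = c • x i + (starRingEnd ℂ) c • star (x i)) →
      (∀ᶠ i in (U : Filter ι), δ / 2 ≤ ‖(a i - (tr ξ (a i) / tr ξ p) • p) ξ‖) →
      ∃ W ∈ N, star W * W = 1 ∧ W * star W = 1 ∧ W * (1 - p) = 1 - p ∧
      ‖tr ξ (W * p)‖ < ε ∧ ∀ g ∈ G, ‖(W * g - g * W) ξ‖ < ε := by
    intro c hc a ha hev
    refine gen_sa hEXP hSCL hPRD htv hI U a ?_ ?_ ?_ ?_ ?_ ?_ hδ hδ1 hev G hG ε hε
    · intro i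
      rw [ha]
      exact add_mem (smul_mem' N _ (hxN i)) (smul_mem' N _ (star_mem' N (hxN i)))
    · intro i
      show star (a i) = a i
      rw [ha, star_add, star_smul, star_smul, star_star, add_comm]
      have : star ((starRingEnd ℂ) c) = c := Complex.conj_conj c
      rw [this]
      rfl
    · intro i
      rw [ha, mul_add, mul_smul_comm, mul_smul_comm, hpx, hpxs]
    · intro i
      rw [ha, add_mul, smul_mul_assoc, smul_mul_assoc, hxp, hxsp]
    · intro i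
      rw [ha]
      refine (norm_add_le _ _).trans ?_
      rw [norm_smul, norm_smul, RCLike.norm_conj, hc, _root_.norm_star]
      have := hx1 i
      linarith
    · intro y hy
      have hyN := hI.sub y hy
      have h1 := hxc y hy
      have h2 := hxc (star y) (hI.star_mem y hy)
      have h3 : Tendsto (fun i => 1 / 2 * ‖(x i * y - y * x i) ξ‖ +
          1 / 2 * ‖(x i * star y - star y * x i) ξ‖) (U : Filter ι) (𝓝 0) := by
        have := (h1.const_mul (1 / 2)).add (h2.const_mul (1 / 2))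
        simpa using this
      refine squeeze_zero (fun i => norm_nonneg _) (fun i => ?_) h3
      have h4 : a i * y - y * a i = c • (x i * y - y * x i) +
          (starRingEnd ℂ) c • (star (x i) * y - y * star (x i)) := by
        rw [ha, add_mul, mul_add, smul_mul_assoc, smul_mul_assoc, mul_smul_comm, mul_smul_comm,
          smul_sub, smul_sub]
        abel
      rw [h4]
      have h5 : (c • (x i * y - y * x i) +
          (starRingEnd ℂ) c • (star (x i) * y - y * star (x i))) ξ =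
          c • ((x i * y - y * x i) ξ) +
          (starRingEnd ℂ) c • ((star (x i) * y - y * star (x i)) ξ) := rfl
      rw [h5]
      refine (norm_add_le _ _).trans ?_
      rw [norm_smul, norm_smul, RCLike.norm_conj, hc, htv.norm_comm_star (hxN i) hyN]
  -- the two parts
  set a₁ : ι → (H →L[ℂ] H) := fun i =>
    (1 / 2 : ℂ) • x i + (starRingEnd ℂ) (1 / 2 : ℂ) • star (x i) with ha₁
  set a₂ : ι → (H →L[ℂ] H) := fun i =>
    (-(Complex.I / 2)) • x i + (starRingEnd ℂ) (-(Complex.I / 2)) • star (x i) with ha₂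
  have hdec : ∀ i, x i = a₁ i + Complex.I • a₂ i := by
    intro i
    simp only [ha₁, ha₂]
    have h0 : (starRingEnd ℂ) (2 : ℂ) = 2 := by
      exact map_ofNat (starRingEnd ℂ) 2
    have h1 : (starRingEnd ℂ) (1 / 2 : ℂ) = 1 / 2 := by
      rw [map_div₀, map_one, h0]
    have h2 : (starRingEnd ℂ) (-(Complex.I / 2)) = Complex.I / 2 := by
      rw [map_neg, map_div₀, Complex.conj_I, h0, neg_div, neg_neg]
    rw [h1, h2, smul_add, smul_smul, smul_smul]
    have h3 : Complex.I * -(Complex.I / 2) = 1 / 2 := by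
      have := Complex.I_mul_I
      linear_combination (-(1 / 2 : ℂ)) * this
    have h4 : Complex.I * (Complex.I / 2) = -(1 / 2) := by
      have := Complex.I_mul_I
      linear_combination (1 / 2 : ℂ) * this
    rw [h3, h4]
    module
  have hor : ∀ᶠ i in (U : Filter ι), δ / 2 ≤ ‖(a₁ i - (tr ξ (a₁ i) / tr ξ p) • p) ξ‖ ∨
      δ / 2 ≤ ‖(a₂ i - (tr ξ (a₂ i) / tr ξ p) • p) ξ‖ := by
    refine hevδ.mono (fun i hi => ?_)
    by_contra hc
    push Not at hc
    have h1 : x i - (tr ξ (x i) / tr ξ p) • p =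
        (a₁ i - (tr ξ (a₁ i) / tr ξ p) • p) +
          Complex.I • (a₂ i - (tr ξ (a₂ i) / tr ξ p) • p) := by
      have h2 : tr ξ (x i) / tr ξ p = tr ξ (a₁ i) / tr ξ p +
          Complex.I * (tr ξ (a₂ i) / tr ξ p) := by
        conv_lhs => rw [hdec i, tr_add, tr_smul]
        ring
      rw [h2]
      conv_lhs => rw [hdec i]
      module
    have h2 : (x i - (tr ξ (x i) / tr ξ p) • p) ξ =
        (a₁ i - (tr ξ (a₁ i) / tr ξ p) • p) ξ +
          Complex.I • ((a₂ i - (tr ξ (a₂ i) / tr ξ p) • p) ξ) := by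
      rw [h1]
      rfl
    have h3 := norm_add_le ((a₁ i - (tr ξ (a₁ i) / tr ξ p) • p) ξ)
      (Complex.I • ((a₂ i - (tr ξ (a₂ i) / tr ξ p) • p) ξ))
    rw [← h2, norm_smul, Complex.norm_I, one_mul] at h3
    linarith [hc.1, hc.2]
  rcases (Ultrafilter.eventually_or.1 hor) with h | h
  · exact hgen (1 / 2) (by norm_num) a₁ (fun i => rfl) h
  · refine hgen (-(Complex.I / 2)) ?_ a₂ (fun i => rfl) h
    rw [norm_neg, norm_div, Complex.norm_I]
    norm_num

end Pool.Agent.H27.BC
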