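import Pool.Agent.H85.BC.Basic

/-!
# Row NMD: the von Neumann algebra generated by `A` and `p` is diffuse below `p`
-/

set_option autoImplicit false

open scoped InnerProductSpace Topology
open Filter

namespace Pool.Agent.H27.BC

open Pool.Agent.H85.BC

variable {H : Type} [NormedAddCommGroup H] [InnerProductSpace ℂ H] [CompleteSpace H]

/-- If `∑ v_j v_j* = p` is a projection, then `p v_j = v_j`. -/
theorem sum_range {n : ℕ} {v : Fin n → (H →L[ℂ] H)} {p : H →L[ℂ] H}
    (hp : IsStarProjection p) (hs : ∑ i, v i * star (v i) = p) (j : Fin n) :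
    p * v j = v j := by
  have h1 : ∀ ζ : H, p ζ = 0 → star (v j) ζ = 0 := by
    intro ζ hζ
    have h2 : ∑ i, ‖star (v i) ζ‖ ^ 2 = 0 := by
      have h3 : (inner ℂ ζ (p ζ) : ℂ) = ((∑ i, ‖star (v i) ζ‖ ^ 2 : ℝ) : ℂ) := by
        rw [← hs, sum_apply, inner_sum]
        push_cast
        refine Finset.sum_congr rfl (fun i _ => ?_)
        show (inner ℂ ζ (v i (star (v i) ζ)) : ℂ) = _
        rw [← inner_star_left, inner_self_eq_norm_sq_to_K]
        rfl
      rw [hζ, inner_zero_right] at h3
      exact_mod_cast h3.symm
    have h4 := (Finset.sum_eq_zero_iff_of_nonneg (fun i _ => by positivity)).1 h2 j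
      (Finset.mem_univ j)
    exact norm_eq_zero.1 (pow_eq_zero_iff two_ne_zero |>.1 h4)
  have h2 : star (v j) * (1 - p) = 0 := by
    ext η
    rw [mul_app]
    refine (h1 _ ?_).trans (by simp)
    have h3 : p * (1 - p) = 0 := by rw [mul_sub, mul_one, hp.isIdempotentElem.eq, sub_self]
    have := congrArg (fun T : H →L[ℂ] H => T η) h3
    simpa using this
  have h3 := congrArg star h2
  rw [star_mul, star_star, star_sub, star_one, hp.isSelfAdjoint.star_eq, star_zero, sub_mul,
    one_mul] at h3
  exact (sub_eq_zero.1 h3).symm

theorem pf_NMD (hNM : T_NM H) (hSCAL : T_SCAL H) (hMINP : T_MINP H) : T_NMD H := by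
  intro N ξ hN A p hI
  have htv := hN.traceVector
  set M : VonNeumannAlgebra H := gen ((A : Set (H →L[ℂ] H)) ∪ {p}) with hM
  have hMN : ∀ x ∈ M, x ∈ N := fun x hx => gen_le (fun y hy => by
    rcases hy with hy | hy
    · exact hI.sub y hy
    · rw [Set.mem_singleton_iff.1 hy]
      exact hI.mem) hx
  have hpM : p ∈ M := subset_gen (Or.inr rfl)
  have hAM : ∀ a ∈ A, a ∈ M := fun a ha => subset_gen (Or.inl ha)
  have hpp := hI.proj.isIdempotentElem.eq
  intro f hf hfp hle hf0
  by_contra hcon
  push Not at hcon
  have hmin : ∀ e ∈ M, IsStarProjection e → f * e = e → e = 0 ∨ e = f := by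
    intro e he hep hfe
    by_cases h0 : e = 0
    · exact Or.inl h0
    · exact Or.inr (hcon e he hep hfe h0)
  have hsc := hSCAL M f hf hfp hmin
  have hfac : FactorCorner M p := by
    intro x hx hc
    refine hI.irr x (hMN x hx.1) hx.2 (fun y hy => ?_)
    have hyp := hI.comm y hy
    have h1 := hc (p * y * p) (corner_mk hpM hI.proj (hAM y hy))
    have h2 : x * p = x := corner_right hI.proj hx
    have h3 : p * x = x := corner_left hI.proj hx
    have h4 : p * y * p = p * y := by rw [mul_assoc, ← hyp, ← mul_assoc, hpp]
    rw [h4] at h1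
    calc x * y = x * p * y := by rw [h2]
      _ = x * (p * y) := by rw [mul_assoc]
      _ = p * y * x := h1
      _ = y * p * x := by rw [hyp]
      _ = y * x := by rw [mul_assoc, h3]
  obtain ⟨n, v, hv, hs⟩ := hMINP N ξ htv M hMN p hpM hI.proj hfac f hf hfp hle hf0 hsc
  have hpv : ∀ i, p * v i = v i := sum_range hI.proj hs
  have hvf : ∀ i, v i * f = v i := fun i => by
    have h1 : IsStarProjection (star (v i) * v i) := by rw [(hv i).2]; exact hfp
    have h2 := pi_mul_star_mul h1
    rwa [(hv i).2] at h2
  have hfv : ∀ i, f * star (v i) = star (v i) := fun i => by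
    have h1 := congrArg star (hvf i)
    rwa [star_mul, hfp.isSelfAdjoint.star_eq] at h1
  have hvp : ∀ i, star (v i) * p = star (v i) := fun i => by
    have h1 := congrArg star (hpv i)
    rwa [star_mul, hI.proj.isSelfAdjoint.star_eq] at h1
  -- some index exists
  have hn : ∃ i : Fin n, True := by
    by_contra hno
    push Not at hno
    have : IsEmpty (Fin n) := ⟨fun i => (hno i)⟩
    rw [Finset.univ_eq_empty, Finset.sum_empty] at hs
    exact hI.ne_zero hs.symm
  obtain ⟨i₀, -⟩ := hn
  -- key: every `f y f` is a scalar
  have hkey : ∀ y ∈ N, ∃ c : ℂ, f * y * f = c • f := by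
    intro y hy
    set Y : H →L[ℂ] H := ∑ i, v i * (f * y * f) * star (v i) with hY
    have hYN : Y ∈ N := by
      refine sum_mem' N _ _ (fun i _ => ?_)
      have h1 := hMN _ (hv i).1
      have h2 := hMN _ hf
      exact mul_mem (mul_mem h1 (mul_mem (mul_mem h2 hy) h2)) (star_mem' N h1)
    have hYp : p * Y * p = Y := by
      rw [hY, Finset.mul_sum, Finset.sum_mul]
      refine Finset.sum_congr rfl (fun i _ => ?_)
      calc p * (v i * (f * y * f) * star (v i)) * p
          = (p * v i) * (f * y * f) * (star (v i) * p) := by simp only [mul_assoc]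
        _ = v i * (f * y * f) * star (v i) := by rw [hpv, hvp]
    have hYA : ∀ a ∈ (A : Set (H →L[ℂ] H)), Y * a = a * Y := by
      intro a ha
      have hap := hI.comm a ha
      have haM : a ∈ M := hAM a ha
      have hc : ∀ i j, ∃ c : ℂ, star (v i) * a * v j = c • f := by
        intro i j
        obtain ⟨c, hc⟩ := hsc (star (v i) * a * v j)
          (mul_mem (mul_mem (star_mem' M (hv i).1) haM) (hv j).1)
        refine ⟨c, ?_⟩
        rw [← hc]
        calc star (v i) * a * v j = (f * star (v i)) * a * (v j * f) := by rw [hfv, hvf]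
          _ = f * (star (v i) * a * v j) * f := by simp only [mul_assoc]
      choose c hc using hc
      have h1 : ∀ j, a * v j = ∑ i, c i j • v i := by
        intro j
        calc a * v j = a * (p * v j) := by rw [hpv]
          _ = p * (a * v j) := by rw [← mul_assoc, ← hap, mul_assoc]
          _ = ∑ i, v i * star (v i) * (a * v j) := by rw [← hs, Finset.sum_mul]
          _ = ∑ i, c i j • v i := by
            refine Finset.sum_congr rfl (fun i _ => ?_)
            calc v i * star (v i) * (a * v j) = v i * (star (v i) * a * v j) := by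
                  simp only [mul_assoc]
              _ = c i j • v i := by rw [hc, mul_smul_comm, hvf]
      have h2 : ∀ i, star (v i) * a = ∑ j, c i j • star (v j) := by
        intro i
        calc star (v i) * a = star (v i) * p * a := by rw [hvp]
          _ = star (v i) * a * p := by rw [mul_assoc, hap, ← mul_assoc]
          _ = ∑ j, star (v i) * a * (v j * star (v j)) := by rw [← hs, Finset.mul_sum]
          _ = ∑ j, c i j • star (v j) := by
            refine Finset.sum_congr rfl (fun j _ => ?_)
            calc star (v i) * a * (v j * star (v j)) = (star (v i) * a * v j) * star (v j) := by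
                  simp only [mul_assoc]
              _ = c i j • star (v j) := by rw [hc, smul_mul_assoc, hfv]
      calc Y * a = ∑ i, v i * (f * y * f) * (star (v i) * a) := by
            rw [hY, Finset.sum_mul]
            exact Finset.sum_congr rfl (fun i _ => by simp only [mul_assoc])
        _ = ∑ i, ∑ j, c i j • (v i * (f * y * f) * star (v j)) := by
            refine Finset.sum_congr rfl (fun i _ => ?_)
            rw [h2, Finset.mul_sum]
            exact Finset.sum_congr rfl (fun j _ => by rw [mul_smul_comm])
        _ = ∑ j, ∑ i, c i j • (v i * (f * y * f) * star (v j)) := Finset.sum_comm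
        _ = ∑ j, a * v j * (f * y * f) * star (v j) := by
            refine Finset.sum_congr rfl (fun j _ => ?_)
            rw [h1, Finset.sum_mul, Finset.sum_mul]
            exact Finset.sum_congr rfl (fun i _ => by rw [smul_mul_assoc, smul_mul_assoc])
        _ = a * Y := by
            rw [hY, Finset.mul_sum]
            exact Finset.sum_congr rfl (fun i _ => by simp only [mul_assoc])
    obtain ⟨c, hc⟩ := hI.irr Y hYN hYp hYA
    have hd : ∀ j, ∃ d : ℂ, star (v i₀) * v j = d • f := by
      intro j
      obtain ⟨d, hd⟩ := hsc (star (v i₀) * v j) (mul_mem (star_mem' M (hv i₀).1) (hv j).1)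
      refine ⟨d, ?_⟩
      rw [← hd]
      calc star (v i₀) * v j = (f * star (v i₀)) * (v j * f) := by rw [hfv, hvf]
        _ = f * (star (v i₀) * v j) * f := by simp only [mul_assoc]
    choose d hd using hd
    have hd' : ∀ j, star (v j) * v i₀ = (starRingEnd ℂ) (d j) • f := by
      intro j
      have h1 := congrArg star (hd j)
      rw [star_mul, star_star, star_smul, hfp.isSelfAdjoint.star_eq] at h1
      exact h1
    have hff := hfp.isIdempotentElem.eq
    have h1 : (∑ j, d j * (starRingEnd ℂ) (d j)) • f = f := by
      calc (∑ j, d j * (starRingEnd ℂ) (d j)) • f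
          = ∑ j, star (v i₀) * (v j * star (v j)) * v i₀ := by
            rw [Finset.sum_smul]
            refine Finset.sum_congr rfl (fun j _ => ?_)
            calc (d j * (starRingEnd ℂ) (d j)) • f
                = (d j • f) * ((starRingEnd ℂ) (d j) • f) := by
                  rw [smul_mul_smul_comm, hff]
              _ = (star (v i₀) * v j) * (star (v j) * v i₀) := by rw [hd, hd']
              _ = star (v i₀) * (v j * star (v j)) * v i₀ := by simp only [mul_assoc]
        _ = star (v i₀) * p * v i₀ := by rw [← Finset.sum_mul, ← Finset.mul_sum, hs]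
        _ = f := by rw [hvp, (hv i₀).2]
    refine ⟨c, ?_⟩
    calc f * y * f = f * (f * y * f) * f := by
          calc f * y * f = (f * f) * y * (f * f) := by rw [hff]
            _ = f * (f * y * f) * f := by simp only [mul_assoc]
      _ = ((∑ j, d j * (starRingEnd ℂ) (d j)) • f) * (f * y * f) * f := by rw [h1]
      _ = ∑ j, (d j * (starRingEnd ℂ) (d j)) • (f * (f * y * f) * f) := by
          rw [smul_mul_assoc, smul_mul_assoc, Finset.sum_smul]
      _ = ∑ j, star (v i₀) * (v j * (f * y * f) * star (v j)) * v i₀ := by
          refine Finset.sum_congr rfl (fun j _ => ?_)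
          calc (d j * (starRingEnd ℂ) (d j)) • (f * (f * y * f) * f)
              = (d j • f) * (f * y * f) * ((starRingEnd ℂ) (d j) • f) := by
                rw [mul_smul_comm, smul_mul_assoc, smul_mul_assoc, smul_smul, mul_comm (d j)]
            _ = (star (v i₀) * v j) * (f * y * f) * (star (v j) * v i₀) := by rw [hd, hd']
            _ = star (v i₀) * (v j * (f * y * f) * star (v j)) * v i₀ := by
                simp only [mul_assoc]
      _ = star (v i₀) * Y * v i₀ := by rw [← Finset.sum_mul, ← Finset.mul_sum, ← hY]
      _ = star (v i₀) * (c • p) * v i₀ := by rw [hc]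
      _ = c • f := by rw [mul_smul_comm, smul_mul_assoc, hvp, (hv i₀).2]
  -- contradiction with NM
  obtain ⟨e, he, hep, hfe, he0, hef⟩ := hNM N ξ hN f (hMN f hf) hfp (one_mul f) hf0
  obtain ⟨c, hc⟩ := hkey e he
  have h1 : e * f = e := proj_mul_comm_of_le hep hfp hfe
  have h2 : e = c • f := by rw [← hc, hfe, h1]
  have h3 : (c * c - c) • f = 0 := by
    have h4 := hep.isIdempotentElem.eq
    rw [h2, smul_mul_smul_comm, hfp.isIdempotentElem.eq] at h4
    rw [sub_smul, h4, sub_self]
  have h5 : c * c - c = 0 := by
    rcases smul_eq_zero.1 h3 with h | h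
    · exact h
    · exact absurd h hf0
  have h6 : c * (c - 1) = 0 := by rw [← h5]; ring
  rcases mul_eq_zero.1 h6 with h | h
  · exact he0 (by rw [h2, h, zero_smul])
  · exact hef (by rw [h2, sub_eq_zero.1 h, one_smul])

end Pool.Agent.H27.BC
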