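import Pool.Agent.H85.BC.Basic

/-!
# Row PAU: values of `τ(b z)` over the unitaries `z` of a corner
-/

set_option autoImplicit false

open scoped InnerProductSpace Topology
open Filter

namespace Pool.Agent.H27.BC

open Pool.Agent.H85.BC

variable {H : Type} [NormedAddCommGroup H] [InnerProductSpace ℂ H] [CompleteSpace H]

/-- Three real unknowns, two real equations. -/
theorem exists_real_kernel (t₁ t₂ t₃ : ℂ) : ∃ a b c : ℝ, a ^ 2 + b ^ 2 + c ^ 2 = 1 ∧
    (a : ℂ) * t₁ + (b : ℂ) * t₂ + (c : ℂ) * t₃ = 0 := by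
  -- nonzero solution
  have h1 : ∃ a b c : ℝ, 0 < a ^ 2 + b ^ 2 + c ^ 2 ∧
      (a : ℂ) * t₁ + (b : ℂ) * t₂ + (c : ℂ) * t₃ = 0 := by
    by_cases hx : t₂.re * t₃.im - t₃.re * t₂.im = 0 ∧ t₃.re * t₁.im - t₁.re * t₃.im = 0 ∧
        t₁.re * t₂.im - t₂.re * t₁.im = 0
    · obtain ⟨h1, h2, h3⟩ := hx
      by_cases h4 : t₁ = 0
      · exact ⟨1, 0, 0, by norm_num, by rw [h4]; simp⟩
      · by_cases h5 : t₁.re = 0
        · have h6 : t₁.im ≠ 0 := fun h => h4 (Complex.ext h5 h)
          have h7 : t₂.re = 0 := by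
            rw [h5, zero_mul, zero_sub, neg_eq_zero] at h3
            exact (mul_eq_zero.1 h3).resolve_right h6
          refine ⟨t₂.im, -t₁.im, 0, ?_, ?_⟩
          · have := sq_pos_of_ne_zero h6
            nlinarith [sq_nonneg t₂.im]
          · apply Complex.ext <;> simp [h5, h7]
            ring
        · refine ⟨t₂.re, -t₁.re, 0, ?_, ?_⟩
          · have := sq_pos_of_ne_zero h5
            nlinarith [sq_nonneg t₂.re]
          · apply Complex.ext
            · simp
              ring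
            · simp
              linarith
    · refine ⟨t₂.re * t₃.im - t₃.re * t₂.im, t₃.re * t₁.im - t₁.re * t₃.im,
        t₁.re * t₂.im - t₂.re * t₁.im, ?_, ?_⟩
      · by_contra hc
        push Not at hc
        apply hx
        have a1 := sq_nonneg (t₂.re * t₃.im - t₃.re * t₂.im)
        have a2 := sq_nonneg (t₃.re * t₁.im - t₁.re * t₃.im)
        have a3 := sq_nonneg (t₁.re * t₂.im - t₂.re * t₁.im)
        refine ⟨?_, ?_, ?_⟩
        · exact pow_eq_zero_iff two_ne_zero |>.1 (by linarith)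
        · exact pow_eq_zero_iff two_ne_zero |>.1 (by linarith)
        · exact pow_eq_zero_iff two_ne_zero |>.1 (by linarith)
      · apply Complex.ext
        · simp
          ring
        · simp
          ring
  obtain ⟨a, b, c, hpos, h2⟩ := h1
  set r : ℝ := Real.sqrt (a ^ 2 + b ^ 2 + c ^ 2) with hr
  have hrpos : 0 < r := Real.sqrt_pos.2 hpos
  have hr2 : r ^ 2 = a ^ 2 + b ^ 2 + c ^ 2 := Real.sq_sqrt hpos.le
  refine ⟨a / r, b / r, c / r, ?_, ?_⟩
  · rw [div_pow, div_pow, div_pow, ← add_div, ← add_div, ← hr2]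
    exact div_self (by positivity)
  · have hrc : (r : ℂ) ≠ 0 := by exact_mod_cast hrpos.ne'
    push_cast
    have h3 : (a : ℂ) / r * t₁ + (b : ℂ) / r * t₂ + (c : ℂ) / r * t₃
        = ((a : ℂ) * t₁ + (b : ℂ) * t₂ + (c : ℂ) * t₃) / r := by
      field_simp
    rw [h3, h2, zero_div]

theorem pf_PAU (hNM : T_NM H) (hHALF : T_HALF H) (hEQV : T_EQV H) : T_PAU H := by
  intro N ξ hN q hqN hq b hb hqb β hβ
  have htv := hN.traceVector
  have hqq := hq.isIdempotentElem.eq
  have hqs := hq.isSelfAdjoint.star_eq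
  have hbq : b * q = b := by
    calc b * q = q * b * q * q := by rw [hqb]
      _ = q * b * (q * q) := by rw [mul_assoc]
      _ = b := by rw [hqq, hqb]
  by_cases htb : tr ξ b = 0
  · rw [htb, norm_zero] at hβ
    have h0 : β = 0 := norm_le_zero_iff.1 hβ
    exact ⟨q, hqN, by rw [hqs, hqq], by rw [hqs, hqq], by rw [hqq, hqq], by
      rw [hbq, htb, h0]⟩
  obtain ⟨e, he, hep, hqe, hes⟩ := hHALF N ξ htv N (fun _ h => h) 1 (one_mem N)
    ⟨one_mul 1, star_one _⟩ (hNM N ξ hN) q hqN hq (one_mul q) (‖q ξ‖ ^ 2 / 2) (by positivity)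
    (by linarith [sq_nonneg ‖q ξ‖])
  have hee := hep.isIdempotentElem.eq
  have hes' := hep.isSelfAdjoint.star_eq
  have heq : e * q = e := proj_mul_comm_of_le hep hq hqe
  have hqe' := proj_sub hep hq hqe
  have hn1 : ‖e ξ‖ = ‖(q - e) ξ‖ := by
    have h1 := norm_sq_sub_proj ξ hep hq hqe
    rw [hes] at h1
    have h2 : ‖e ξ‖ ^ 2 = ‖(q - e) ξ‖ ^ 2 := by rw [h1, hes]; ring
    exact (pow_left_inj₀ (norm_nonneg _) (norm_nonneg _) two_ne_zero).1 h2
  obtain ⟨w, hw, hw1, hw2⟩ := hEQV N ξ htv hN.factor e he hep (q - e) (sub_mem hqN he) hqe' hn1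
  have hwe : w * e = w := by
    have h2 := pi_mul_star_mul (v := w) (by rw [hw1]; exact hep)
    rwa [hw1] at h2
  have hews : e * star w = star w := by
    have h1 := congrArg star hwe
    rwa [star_mul, hes'] at h1
  have hqw : (q - e) * w = w := by
    rw [← hw2, mul_assoc, hw1, hwe]
  have hwq : star w * (q - e) = star w := by
    have h1 := congrArg star hqw
    rwa [star_mul, hqe'.isSelfAdjoint.star_eq] at h1
  have hee0 : e * (q - e) = 0 := by rw [mul_sub, heq, hee, sub_self]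
  have hew : e * w = 0 := by
    calc e * w = e * ((q - e) * w) := by rw [hqw]
      _ = 0 := by rw [← mul_assoc, hee0, zero_mul]
  have hww : w * w = 0 := by
    calc w * w = w * e * w := by rw [hwe]
      _ = 0 := by rw [mul_assoc, hew, mul_zero]
  have hwws : star w * star w = 0 := by
    rw [← star_mul, hww, star_zero]
  have hqw' : q * w = w := by
    have h1 := hqw
    rw [sub_mul, hew, sub_zero] at h1
    exact h1
  have hwq' : w * q = w := by
    calc w * q = w * e * q := by rw [hwe]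
      _ = w := by rw [mul_assoc, heq, hwe]
  have hqws : q * star w = star w := by
    have h1 := congrArg star hwq'
    rwa [star_mul, hqs] at h1
  have hwsq : star w * q = star w := by
    have h1 := congrArg star hqw'
    rwa [star_mul, hqs] at h1
  have hwse : star w * e = 0 := by
    have h1 := congrArg star hew
    rwa [star_mul, hes', star_zero] at h1
  have hI2 : Complex.I * Complex.I = -1 := Complex.I_mul_I
  -- the three selfadjoint unitaries
  set s₁ : H →L[ℂ] H := w + star w with hs1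
  set s₂ : H →L[ℂ] H := Complex.I • (w - star w) with hs2
  set s₃ : H →L[ℂ] H := e + e - q with hs3
  obtain ⟨n₁, n₂, n₃, hn, hker⟩ := exists_real_kernel (tr ξ (b * s₁)) (tr ξ (b * s₂))
    (tr ξ (b * s₃))
  set s : H →L[ℂ] H := (n₁ : ℂ) • s₁ + (n₂ : ℂ) • s₂ + (n₃ : ℂ) • s₃ with hsdef
  have hsN : s ∈ N := by
    refine add_mem (add_mem (smul_mem' N _ (add_mem hw (star_mem' N hw)))
      (smul_mem' N _ (smul_mem' N _ (sub_mem hw (star_mem' N hw))))) (smul_mem' N _ ?_)
    exact sub_mem (add_mem he he) hqN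
  have e11 : s₁ * s₁ = q := by
    rw [hs1, add_mul, mul_add, mul_add, hww, hwws, hw1, hw2]
    abel
  have e22 : s₂ * s₂ = q := by
    rw [hs2, smul_mul_smul_comm, hI2, sub_mul, mul_sub, mul_sub, hww, hwws, hw1, hw2]
    rw [neg_smul, one_smul]
    abel
  have e33 : s₃ * s₃ = q := by
    rw [hs3]
    simp only [sub_mul, mul_sub, add_mul, mul_add, hee, heq, hqe, hqq]
    abel
  have e12 : s₁ * s₂ + s₂ * s₁ = 0 := by
    rw [hs1, hs2, mul_smul_comm, smul_mul_assoc, ← smul_add]
    simp only [sub_mul, mul_sub, add_mul, mul_add, hww, hwws, hw1, hw2]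
    have : (0 : H →L[ℂ] H) + e - (q - e + 0) + (0 + (q - e) - (e + 0)) = 0 := by abel
    simp
  have e13 : s₁ * s₃ + s₃ * s₁ = 0 := by
    rw [hs1, hs3]
    simp only [sub_mul, mul_sub, add_mul, mul_add, hwe, hwse, hwq', hwsq, hew, hews, hqw', hqws]
    abel
  have e23 : s₂ * s₃ + s₃ * s₂ = 0 := by
    rw [hs2, hs3, mul_smul_comm, smul_mul_assoc, ← smul_add]
    simp only [sub_mul, mul_sub, add_mul, mul_add, hwe, hwse, hwq', hwsq, hew, hews, hqw', hqws]
    have : (w + w - w - (0 + 0 - star w)) + (0 - star w + (0 - star w) - (w - star w))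
      = (0 : H →L[ℂ] H) := by abel
    simp only [smul_eq_zero, Complex.I_ne_zero, false_or]
    abel
  have hss : s * s = q := by
    have h1 : s * s = ((n₁ ^ 2 + n₂ ^ 2 + n₃ ^ 2 : ℝ) : ℂ) • q +
        ((n₁ : ℂ) * n₂) • (s₁ * s₂ + s₂ * s₁) + ((n₁ : ℂ) * n₃) • (s₁ * s₃ + s₃ * s₁) +
        ((n₂ : ℂ) * n₃) • (s₂ * s₃ + s₃ * s₂) := by
      rw [hsdef]
      simp only [add_mul, mul_add, smul_mul_smul_comm, e11, e22, e33]
      push_cast
      module
    rw [h1, e12, e13, e23, hn]
    simp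
  have hs_star : star s = s := by
    have a1 : star s₁ = s₁ := by rw [hs1, star_add, star_star, add_comm]
    have a2 : star s₂ = s₂ := by
      rw [hs2, star_smul, star_sub, star_star]
      have : star Complex.I = -Complex.I := Complex.conj_I
      rw [this, neg_smul, ← smul_neg, neg_sub]
    have a3 : star s₃ = s₃ := by rw [hs3, star_sub, star_add, hes', hqs]
    have a4 : ∀ (n : ℝ) (t : H →L[ℂ] H), star t = t → star ((n : ℂ) • t) = (n : ℂ) • t := by
      intro n t ht
      rw [star_smul, ht]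
      have h2 : star ((n : ℂ)) = (n : ℂ) := Complex.conj_ofReal n
      rw [h2]
    rw [hsdef, star_add, star_add, a4 _ _ a1, a4 _ _ a2, a4 _ _ a3]
  have hqs_ : q * s = s := by
    rw [hsdef, hs1, hs2, hs3]
    simp only [mul_add, mul_sub, mul_smul_comm, hqw', hqws, hqe, hqq]
  have hsq_ : s * q = s := by
    have h1 := congrArg star hqs_
    rwa [star_mul, hs_star, hqs] at h1
  have htrs : tr ξ (b * s) = 0 := by
    have a5 : ∀ (n : ℝ) (t : H →L[ℂ] H), tr ξ (b * ((n : ℂ) • t)) = (n : ℂ) * tr ξ (b * t) := by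
      intro n t
      rw [mul_smul_comm, tr_smul]
    rw [hsdef, mul_add, mul_add, tr_add, tr_add, a5, a5, a5]
    exact hker
  -- scalars
  set c : ℂ := β / tr ξ b with hc
  have hc1 : ‖c‖ ≤ 1 := by
    rw [hc, norm_div]
    exact div_le_one_of_le₀ hβ (norm_nonneg _)
  obtain ⟨u, hu, hcu⟩ : ∃ u : ℂ, (starRingEnd ℂ) u * u = 1 ∧ c = u * (‖c‖ : ℂ) := by
    by_cases h0 : c = 0
    · exact ⟨1, by simp, by rw [h0]; simp⟩
    · have h1 : (‖c‖ : ℂ) ≠ 0 := by
        exact_mod_cast (norm_pos_iff.2 h0).ne'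
      refine ⟨c / ‖c‖, ?_, ?_⟩
      · rw [map_div₀, Complex.conj_ofReal, div_mul_div_comm, ← Complex.normSq_eq_conj_mul_self,
          Complex.normSq_eq_norm_sq]
        push_cast
        rw [← pow_two]
        exact div_self (pow_ne_zero _ h1)
      · exact (div_mul_cancel₀ c h1).symm
  set r : ℝ := ‖c‖ with hr
  set ρ : ℝ := Real.sqrt (1 - r ^ 2) with hρ
  have hρ2 : ρ * ρ = 1 - r * r := by
    have h1 : 0 ≤ 1 - r ^ 2 := by
      have h2 := norm_nonneg c
      nlinarith
    rw [hρ, Real.mul_self_sqrt h1, pow_two]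
  set z : H →L[ℂ] H := u • ((r : ℂ) • q + (Complex.I * (ρ : ℂ)) • s) with hz
  have hstar : star z = (starRingEnd ℂ) u • ((r : ℂ) • q - (Complex.I * (ρ : ℂ)) • s) := by
    rw [hz, star_smul, star_add, star_smul, star_smul, hqs, hs_star]
    have h1 : star (Complex.I * (ρ : ℂ)) = -(Complex.I * (ρ : ℂ)) := by
      rw [Complex.star_def, map_mul, Complex.conj_I, Complex.conj_ofReal, neg_mul]
    have h2 : star ((r : ℂ)) = (r : ℂ) := Complex.conj_ofReal r
    rw [h1, h2, neg_smul, ← sub_eq_add_neg]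
    rfl
  have hcalc : ∀ ε : ℂ, ε * ε = 1 →
      ((r : ℂ) • q + (ε * (Complex.I * (ρ : ℂ))) • s) *
        ((r : ℂ) • q - (ε * (Complex.I * (ρ : ℂ))) • s) = q := by
    intro ε hε
    have h1 : ((r : ℂ) * r - ε * (Complex.I * ρ) * (ε * (Complex.I * ρ))) = 1 := by
      have h2 : ((r : ℂ) * r - ε * (Complex.I * ρ) * (ε * (Complex.I * ρ)))
          = (r : ℂ) * r - (ε * ε) * (Complex.I * Complex.I) * ((ρ : ℂ) * ρ) := by ring
      rw [h2, hε, hI2]
      have h3 : (ρ : ℂ) * ρ = 1 - (r : ℂ) * r := by exact_mod_cast hρ2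
      rw [h3]
      ring
    simp only [add_mul, mul_sub, smul_mul_smul_comm, hqq, hqs_, hsq_, hss]
    have h4 : ((r : ℂ) * r) • q + (ε * (Complex.I * ρ) * r) • s -
        (((r : ℂ) * (ε * (Complex.I * ρ))) • s +
          (ε * (Complex.I * ρ) * (ε * (Complex.I * ρ))) • q)
        = ((r : ℂ) * r - ε * (Complex.I * ρ) * (ε * (Complex.I * ρ))) • q := by
      module
    rw [h4, h1, one_smul]
  refine ⟨z, ?_, ?_, ?_, ?_, ?_⟩
  · exact smul_mem' N _ (add_mem (smul_mem' N _ hqN) (smul_mem' N _ hsN))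
  · rw [hstar, hz, smul_mul_smul_comm, hu, one_smul]
    have h1 := hcalc (-1) (by norm_num)
    simpa [neg_mul, one_mul, neg_smul, ← sub_eq_add_neg] using h1
  · rw [hstar, hz, smul_mul_smul_comm, mul_comm u, hu, one_smul]
    have h1 := hcalc 1 (by norm_num)
    simpa using h1
  · rw [hz]
    simp only [mul_smul_comm, smul_mul_assoc, mul_add, add_mul, hqq, hqs_, hsq_]
  · rw [hz, mul_smul_comm, tr_smul, mul_add, mul_smul_comm, mul_smul_comm, tr_add, tr_smul,
      tr_smul, hbq, htrs, mul_zero, add_zero, ← mul_assoc, ← hcu, hc, div_mul_cancel₀ _ htb]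

end Pool.Agent.H27.BC
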