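import Pool.Agent.H85.BC.Basic

/-!
# Row ZAP: a unitary of small trace is close to a unitary of trace zero
-/

set_option autoImplicit false

open scoped InnerProductSpace Topology
open Filter

namespace Pool.Agent.H27.BC

open Pool.Agent.H85.BC

variable {H : Type} [NormedAddCommGroup H] [InnerProductSpace ℂ H] [CompleteSpace H]

/-- `‖a ξ‖` depends only on `a* a`. -/
theorem norm_eq_of_star_mul (ξ : H) {a b : H →L[ℂ] H} (h : star a * a = star b * b) :
    ‖a ξ‖ = ‖b ξ‖ := by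
  have h1 := tr_star_mul_self ξ a
  rw [h, tr_star_mul_self] at h1
  have h2 : ‖b ξ‖ ^ 2 = ‖a ξ‖ ^ 2 := by exact_mod_cast h1
  exact ((pow_left_inj₀ (norm_nonneg _) (norm_nonneg _) two_ne_zero).1 h2).symm

/-- `|τ(x q)| ≤ ‖x‖ τ(q)`. -/
theorem norm_tr_mul_proj {N : VonNeumannAlgebra H} {ξ : H} (htv : IsTraceVector N ξ)
    {x q : H →L[ℂ] H} (hx : x ∈ N) (hq : q ∈ N) (hqp : IsStarProjection q) :
    ‖tr ξ (x * q)‖ ≤ ‖x‖ * ‖q ξ‖ ^ 2 := by
  have hqq := hqp.isIdempotentElem.eq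
  have h1 : tr ξ (x * q) = inner ℂ (q ξ) (x (q ξ)) := by
    calc tr ξ (x * q) = tr ξ ((x * q) * q) := by rw [mul_assoc, hqq]
      _ = tr ξ (q * (x * q)) := htv.trace (x * q) (mul_mem hx hq) q hq
      _ = tr ξ (star q * (x * q)) := by rw [hqp.isSelfAdjoint.star_eq]
      _ = inner ℂ (q ξ) ((x * q) ξ) := tr_star_mul ξ q (x * q)
      _ = inner ℂ (q ξ) (x (q ξ)) := rfl
  rw [h1]
  have h2 := norm_inner_le_norm (𝕜 := ℂ) (q ξ) (x (q ξ))
  have h3 := x.le_opNorm (q ξ)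
  have h4 : ‖q ξ‖ * ‖x (q ξ)‖ ≤ ‖q ξ‖ * (‖x‖ * ‖q ξ‖) :=
    mul_le_mul_of_nonneg_left h3 (norm_nonneg _)
  calc ‖(inner ℂ (q ξ) (x (q ξ)) : ℂ)‖ ≤ ‖q ξ‖ * ‖x (q ξ)‖ := h2
    _ ≤ ‖q ξ‖ * (‖x‖ * ‖q ξ‖) := h4
    _ = ‖x‖ * ‖q ξ‖ ^ 2 := by ring

theorem pf_ZAP (hARC : T_ARC H) (hPAU : T_PAU H) (hNM : T_NM H) (hHALF : T_HALF H) :
    T_ZAP H := by
  obtain ⟨κ, hκ, hARC⟩ := hARC
  intro N ξ hN ε hε
  have htv := hN.traceVector
  set k : ℝ := min κ (ε ^ 2 / 16) with hk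
  have hkpos : 0 < k := lt_min hκ (by positivity)
  have hkκ : k ≤ κ := min_le_left _ _
  have hkε : k ≤ ε ^ 2 / 16 := min_le_right _ _
  refine ⟨k / 4, by positivity, ?_⟩
  intro u hu hu1 hu2 htu
  obtain ⟨l₁, l₂, hl₁, hl₂, hl, r₁, hr₁, r₂, hr₂, hp₁, hp₂, hr12, hk₁, hk₂, hd₁, hd₂⟩ :=
    hARC N ξ htv u hu hu1 hu2 (by linarith)
  have hone : IsStarProjection (1 : H →L[ℂ] H) := ⟨one_mul 1, star_one _⟩
  obtain ⟨q₁, hq₁, hqp₁, hrq₁, hqn₁⟩ := hHALF N ξ htv N (fun _ h => h) 1 (one_mem N)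
    hone (hNM N ξ hN) r₁ hr₁ hp₁ (one_mul r₁) k hkpos.le (by linarith)
  obtain ⟨q₂, hq₂, hqp₂, hrq₂, hqn₂⟩ := hHALF N ξ htv N (fun _ h => h) 1 (one_mem N)
    hone (hNM N ξ hN) r₂ hr₂ hp₂ (one_mul r₂) k hkpos.le (by linarith)
  have hqr₁ : q₁ * r₁ = q₁ := proj_mul_comm_of_le hqp₁ hp₁ hrq₁
  have hqr₂ : q₂ * r₂ = q₂ := proj_mul_comm_of_le hqp₂ hp₂ hrq₂
  have h11 := hqp₁.isIdempotentElem.eq
  have h22 := hqp₂.isIdempotentElem.eq
  have hs1 := hqp₁.isSelfAdjoint.star_eq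
  have hs2 := hqp₂.isSelfAdjoint.star_eq
  have h12 : q₁ * q₂ = 0 := by
    calc q₁ * q₂ = q₁ * r₁ * (r₂ * q₂) := by rw [hqr₁, hrq₂]
      _ = q₁ * (r₁ * r₂) * q₂ := by simp only [mul_assoc]
      _ = 0 := by rw [hr12, mul_zero, zero_mul]
  have h21 : q₂ * q₁ = 0 := by
    have := congrArg star h12
    rwa [star_mul, hs1, hs2, star_zero] at this
  set q : H →L[ℂ] H := q₁ + q₂ with hqdef
  have hqN : q ∈ N := add_mem hq₁ hq₂
  have hqq : q * q = q := by
    rw [hqdef, add_mul, mul_add, mul_add, h11, h12, h21, h22, add_zero, zero_add]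
  have hqs : star q = q := by rw [hqdef, star_add, hs1, hs2]
  have hq : IsStarProjection q := ⟨hqq, hqs⟩
  have hqq1 : q * q₁ = q₁ := by rw [hqdef, add_mul, h11, h21, add_zero]
  have hqq2 : q * q₂ = q₂ := by rw [hqdef, add_mul, h12, h22, zero_add]
  have hq1q : q₁ * q = q₁ := by rw [hqdef, mul_add, h11, h12, add_zero]
  have hq2q : q₂ * q = q₂ := by rw [hqdef, mul_add, h21, h22, zero_add]
  have hqn : ‖q ξ‖ ^ 2 = 2 * k := by
    have h1 := tr_proj ξ hq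
    rw [hqdef, tr_add, tr_proj ξ hqp₁, tr_proj ξ hqp₂, hqn₁, hqn₂, ← hqdef] at h1
    have h2 : k + k = ‖q ξ‖ ^ 2 := by exact_mod_cast h1
    linarith
  have hll : ∀ l : ℂ, ‖l‖ = 1 → (starRingEnd ℂ) l * l = 1 := by
    intro l hl
    rw [← Complex.normSq_eq_conj_mul_self, Complex.normSq_eq_norm_sq, hl]
    norm_num
  have hll' : ∀ l : ℂ, ‖l‖ = 1 → l * (starRingEnd ℂ) l = 1 := by
    intro l hl
    rw [mul_comm]
    exact hll l hl
  set z₀ : H →L[ℂ] H := (starRingEnd ℂ) l₁ • q₁ + (starRingEnd ℂ) l₂ • q₂ with hz₀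
  have hz₀N : z₀ ∈ N := add_mem (smul_mem' N _ hq₁) (smul_mem' N _ hq₂)
  have hz₀s : star z₀ = l₁ • q₁ + l₂ • q₂ := by
    rw [hz₀, star_add, star_smul, star_smul, hs1, hs2]
    have a : ∀ l : ℂ, star ((starRingEnd ℂ) l) = l := fun l => Complex.conj_conj l
    rw [a, a]
  have hz₀1 : star z₀ * z₀ = q := by
    rw [hz₀s, hz₀]
    simp only [add_mul, mul_add, smul_mul_smul_comm, h11, h12, h21, h22, smul_zero, add_zero,
      zero_add, hll' l₁ hl₁, hll' l₂ hl₂, one_smul]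
    rfl
  have hz₀2 : z₀ * star z₀ = q := by
    rw [hz₀s, hz₀]
    simp only [add_mul, mul_add, smul_mul_smul_comm, h11, h12, h21, h22, smul_zero, add_zero,
      zero_add, hll l₁ hl₁, hll l₂ hl₂, one_smul]
    rfl
  have hqz₀ : q * z₀ = z₀ := by rw [hz₀, mul_add, mul_smul_comm, mul_smul_comm, hqq1, hqq2]
  have hz₀q : z₀ * q = z₀ := by rw [hz₀, add_mul, smul_mul_assoc, smul_mul_assoc, hq1q, hq2q]
  -- traces
  have hE : ∀ (l : ℂ) (r s : H →L[ℂ] H), r ∈ N → s ∈ N → IsStarProjection s → r * s = s →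
      ‖(u - l • 1) * r‖ ≤ 1 / 100 → ‖s ξ‖ ^ 2 = k → ‖tr ξ (u * s) - l * (k : ℂ)‖ ≤ k / 100 := by
    intro l r s hr hs hsp hrs hd hn
    have h1 : tr ξ (u * s) - l * (k : ℂ) = tr ξ ((u - l • 1) * r * s) := by
      rw [mul_assoc, hrs, sub_mul, tr_sub, smul_mul_assoc, one_mul, tr_smul, tr_proj ξ hsp, hn]
    rw [h1]
    have h2 : (u - l • 1) * r ∈ N := mul_mem (sub_mem hu (smul_mem' N _ (one_mem N))) hr
    refine (norm_tr_mul_proj htv h2 hs hsp).trans ?_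
    rw [hn]
    nlinarith
  have hE₁ := hE l₁ r₁ q₁ hr₁ hq₁ hqp₁ hrq₁ hd₁ hqn₁
  have hE₂ := hE l₂ r₂ q₂ hr₂ hq₂ hqp₂ hrq₂ hd₂ hqn₂
  set b : H →L[ℂ] H := q * u * z₀ with hb
  have hbN : b ∈ N := mul_mem (mul_mem hqN hu) hz₀N
  have hqb : q * b * q = b := by
    calc q * b * q = (q * q) * u * (z₀ * q) := by rw [hb]; simp only [mul_assoc]
      _ = b := by rw [hqq, hz₀q]
  have htb : tr ξ b = (starRingEnd ℂ) l₁ * tr ξ (u * q₁) + (starRingEnd ℂ) l₂ * tr ξ (u * q₂) := by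
    have h1 : tr ξ b = tr ξ (u * z₀) := by
      calc tr ξ b = tr ξ (q * (u * z₀)) := by rw [hb, mul_assoc]
        _ = tr ξ (u * z₀ * q) := htv.trace q hqN (u * z₀) (mul_mem hu hz₀N)
        _ = tr ξ (u * z₀) := by rw [mul_assoc, hz₀q]
    rw [h1, hz₀, mul_add, mul_smul_comm, mul_smul_comm, tr_add, tr_smul, tr_smul]
  have hbl : 198 / 100 * k ≤ ‖tr ξ b‖ := by
    have h1 : tr ξ b - ((2 * k : ℝ) : ℂ) =
        (starRingEnd ℂ) l₁ * (tr ξ (u * q₁) - l₁ * (k : ℂ)) +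
        (starRingEnd ℂ) l₂ * (tr ξ (u * q₂) - l₂ * (k : ℂ)) := by
      rw [htb]
      have a1 := hll l₁ hl₁
      have a2 := hll l₂ hl₂
      push_cast
      linear_combination (k : ℂ) * a1 + (k : ℂ) * a2
    have h2 : ‖tr ξ b - ((2 * k : ℝ) : ℂ)‖ ≤ k / 100 + k / 100 := by
      rw [h1]
      refine (norm_add_le _ _).trans ?_
      rw [norm_mul, norm_mul, RCLike.norm_conj, RCLike.norm_conj, hl₁, hl₂, one_mul, one_mul]
      exact add_le_add hE₁ hE₂
    have h3 : ‖((2 * k : ℝ) : ℂ)‖ = 2 * k := by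
      rw [Complex.norm_real, Real.norm_eq_abs, abs_of_pos (by positivity)]
    have h4 := norm_sub_norm_le ((2 * k : ℝ) : ℂ) (((2 * k : ℝ) : ℂ) - tr ξ b)
    have h5 : ‖((2 * k : ℝ) : ℂ) - tr ξ b‖ ≤ k / 100 + k / 100 := by
      rw [norm_sub_rev]; exact h2
    rw [sub_sub_cancel, h3] at h4
    linarith
  set β : ℂ := tr ξ (u * q) - tr ξ u with hβ
  have hβl : ‖β‖ ≤ ‖tr ξ b‖ := by
    have h1 : β = (tr ξ (u * q₁) - l₁ * (k : ℂ)) + (tr ξ (u * q₂) - l₂ * (k : ℂ)) +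
        (l₁ + l₂) * (k : ℂ) - tr ξ u := by
      rw [hβ, hqdef, mul_add, tr_add]
      ring
    have h2 : ‖β‖ ≤ k / 100 + k / 100 + 3 / 2 * k + k / 4 := by
      rw [h1]
      refine (norm_sub_le _ _).trans (add_le_add ?_ htu.le)
      refine (norm_add_le _ _).trans (add_le_add ((norm_add_le _ _).trans
        (add_le_add hE₁ hE₂)) ?_)
      rw [norm_mul, Complex.norm_real, Real.norm_eq_abs, abs_of_pos hkpos]
      exact mul_le_mul_of_nonneg_right hl hkpos.le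
    linarith
  obtain ⟨z, hz, hz1, hz2, hqzq, htz⟩ := hPAU N ξ hN q hqN hq b hbN hqb β hβl
  have hqz : q * z = z := by
    calc q * z = q * (q * z * q) := by rw [hqzq]
      _ = (q * q) * z * q := by simp only [mul_assoc]
      _ = z := by rw [hqq, hqzq]
  have hzq : z * q = z := by
    calc z * q = q * z * q * q := by rw [hqzq]
      _ = q * z * (q * q) := by simp only [mul_assoc]
      _ = z := by rw [hqq, hqzq]
  set w : H →L[ℂ] H := z₀ * z with hw
  have hwN : w ∈ N := mul_mem hz₀N hz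
  have hw1 : star w * w = q := by
    calc star w * w = star z * (star z₀ * z₀) * z := by
          rw [hw, star_mul]; simp only [mul_assoc]
      _ = star z * (q * z) := by rw [hz₀1, mul_assoc]
      _ = q := by rw [hqz, hz1]
  have hw2 : w * star w = q := by
    calc w * star w = z₀ * (z * star z) * star z₀ := by
          rw [hw, star_mul]; simp only [mul_assoc]
      _ = z₀ * q * star z₀ := by rw [hz2]
      _ = q := by rw [hz₀q, hz₀2]
  have hqw : q * w = w := by rw [hw, ← mul_assoc, hqz₀]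
  have hwq : w * q = w := by rw [hw, mul_assoc, hzq]
  have hqws : q * star w = star w := by
    have := congrArg star hwq
    rwa [star_mul, hqs] at this
  have hwsq : star w * q = star w := by
    have := congrArg star hqw
    rwa [star_mul, hqs] at this
  refine ⟨u * (1 - q + w), mul_mem hu (add_mem (sub_mem (one_mem N) hqN) hwN), ?_, ?_, ?_, ?_⟩
  · calc star (u * (1 - q + w)) * (u * (1 - q + w))
        = (1 - q + star w) * (star u * u) * (1 - q + w) := by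
          rw [star_mul, star_add, star_sub, star_one, hqs]; simp only [mul_assoc]
      _ = (1 - q + star w) * (1 - q + w) := by rw [hu1, mul_one]
      _ = 1 := by
          simp only [add_mul, mul_add, sub_mul, mul_sub, mul_one, one_mul, hqq, hqw, hwsq, hw1]
          abel
  · calc u * (1 - q + w) * star (u * (1 - q + w))
        = u * ((1 - q + w) * (1 - q + star w)) * star u := by
          rw [star_mul, star_add, star_sub, star_one, hqs]; simp only [mul_assoc]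
      _ = u * 1 * star u := by
          congr 2
          simp only [add_mul, mul_add, sub_mul, mul_sub, mul_one, one_mul, hqq, hqws, hwq, hw2]
          abel
      _ = 1 := by rw [mul_one, hu2]
  · have h1 : tr ξ (u * w) = β := by
      calc tr ξ (u * w) = tr ξ (u * w * q) := by rw [mul_assoc, hwq]
        _ = tr ξ (q * (u * w)) := htv.trace (u * w) (mul_mem hu hwN) q hqN
        _ = tr ξ (b * z) := by rw [hb, hw]; simp only [mul_assoc]
        _ = β := htz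
    rw [mul_add, mul_sub, mul_one, tr_add, tr_sub, h1, hβ]
    ring
  · have h1 : u - u * (1 - q + w) = u * (q - w) := by
      rw [mul_add, mul_sub, mul_one, mul_sub]
      abel
    have h2 : ‖(u * (q - w)) ξ‖ = ‖(q - w) ξ‖ := by
      apply norm_eq_of_star_mul
      calc star (u * (q - w)) * (u * (q - w)) = star (q - w) * (star u * u) * (q - w) := by
            rw [star_mul]; simp only [mul_assoc]
        _ = star (q - w) * (q - w) := by rw [hu1, mul_one]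
    have h3 : ‖w ξ‖ = ‖q ξ‖ := by
      apply norm_eq_of_star_mul
      rw [hw1, hqs, hqq]
    rw [h1, h2]
    have h4 : ‖(q - w) ξ‖ ≤ ‖q ξ‖ + ‖w ξ‖ := by
      rw [sub_apply]
      exact norm_sub_le _ _
    rw [h3] at h4
    have h5 : (‖q ξ‖ + ‖q ξ‖) ^ 2 < ε ^ 2 := by
      have h6 : (‖q ξ‖ + ‖q ξ‖) ^ 2 = 4 * ‖q ξ‖ ^ 2 := by ring
      rw [h6, hqn]
      nlinarith [sq_pos_of_pos hε]
    exact h4.trans_lt (lt_of_pow_lt_pow_left₀ 2 hε.le h5)

end Pool.Agent.H27.BC
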